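import Pool.Agent.Helper14.TK7.StD

/-!
# Project TK (levels `3·7^n`), module TRF: values of the leading forms on the binomial basis
-/

set_option autoImplicit false

namespace Pool.Agent.Helper84.TK7

open Pool.Agent.Helper14.TK7 Pool.Agent.Helper84.S7

/-! ### The coefficients -/

section poly

open Polynomial

private noncomputable def vcK (j x : ℕ) : ZMod 7 := ((1 + C (5 : ZMod 7) * X ^ 3 + X ^ 6) ^ j).coeff x

private theorem vc_zero (j : ℕ) : vcK j 0 = 1 := by
  unfold vcK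
  rw [Polynomial.coeff_zero_eq_eval_zero]
  simp

private theorem vc_three (j x : ℕ) (h : ¬ 3 ∣ x) : vcK j x = 0 := by
  have e : ((1 + C (5 : ZMod 7) * X ^ 3 + X ^ 6) ^ j : Polynomial (ZMod 7)) =
      Polynomial.expand (ZMod 7) 3 ((1 + C (5 : ZMod 7) * X + X ^ 2) ^ j) := by
    simp only [map_pow, map_add, map_one, map_mul, Polynomial.expand_C, Polynomial.expand_X,
      ← pow_mul]
  unfold vcK
  rw [e, Polynomial.coeff_expand (by norm_num), if_neg h]

/-- the polynomial with given coefficients -/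
private noncomputable def pq (q : ℕ → ZMod 7) (n : ℕ) : Polynomial (ZMod 7) :=
  ∑ k ∈ Finset.range (n + 1), C (q k) * X ^ k

private theorem pq_deg (q : ℕ → ZMod 7) (n : ℕ) : (pq q n).natDegree ≤ n := by
  unfold pq
  refine Polynomial.natDegree_sum_le_of_forall_le _ _ fun k hk => ?_
  refine (Polynomial.natDegree_C_mul_X_pow_le _ _).trans ?_
  have := Finset.mem_range.1 hk
  omega

/-- the polynomial of `V` -/
private noncomputable def pv : Polynomial (ZMod 7) := X + C (5 : ZMod 7) * X ^ 4 + X ^ 7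

private theorem pv_deg : pv.natDegree ≤ 8 := by
  unfold pv
  compute_degree
  norm_num

private theorem pv_eq : pv = X * (1 + C (5 : ZMod 7) * X ^ 3 + X ^ 6) := by
  unfold pv
  ring

/-- the coefficients of the product -/
private theorem coeff_prod (q : ℕ → ZMod 7) (n i j B : ℕ) :
    (pq q n * X ^ i * pv ^ j).coeff B =
      ∑ m ∈ Finset.range (n + 1), (if i + j + m ≤ B then q m * vcK j (B - (i + j + m)) else 0) := by
  have e : pq q n * X ^ i * pv ^ j =
      ∑ m ∈ Finset.range (n + 1), C (q m) * (X ^ (i + j + m) *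
        (1 + C (5 : ZMod 7) * X ^ 3 + X ^ 6) ^ j) := by
    unfold pq
    rw [Finset.sum_mul, Finset.sum_mul]
    refine Finset.sum_congr rfl fun m _ => ?_
    rw [pv_eq, mul_pow]
    ring
  rw [e, Polynomial.finsetSum_coeff]
  refine Finset.sum_congr rfl fun m _ => ?_
  rw [Polynomial.coeff_C_mul, Polynomial.coeff_X_pow_mul']
  split_ifs with h
  · rfl
  · rw [mul_zero]

variable {S : Type} [CommRing S] [Algebra (ZMod 7) S]

private theorem al_pq (x y : S) (q : ℕ → ZMod 7) (n : ℕ) :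
    MvPolynomial.aeval ![y, x] ((pq q n).homogenize n) =
      ∑ k ∈ Finset.range (n + 1), q k • (x ^ (n - k) * y ^ k) := by
  unfold pq
  rw [Polynomial.homogenize_finsetSum, map_sum]
  refine Finset.sum_congr rfl fun k hk => ?_
  have hk' : k ≤ n := by
    have := Finset.mem_range.1 hk
    omega
  rw [Polynomial.homogenize_C_mul, Polynomial.homogenize_X_pow hk', map_mul, map_mul, map_pow,
    map_pow, MvPolynomial.aeval_X, MvPolynomial.aeval_X, MvPolynomial.aeval_C, Algebra.smul_def]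
  simp only [Matrix.cons_val_zero, Matrix.cons_val_one]
  ring

private theorem al_gen (x y : S) (P : Polynomial (ZMod 7)) (n : ℕ) (h : P.natDegree ≤ n) :
    MvPolynomial.aeval ![y, x] (P.homogenize n) =
      ∑ k ∈ Finset.range (n + 1), P.coeff k • (x ^ (n - k) * y ^ k) := by
  rw [← al_pq]
  congr 2
  unfold pq
  exact Polynomial.as_sum_range_C_mul_X_pow' P (Nat.lt_succ_of_le h)

private theorem al_pv (x y : S) : MvPolynomial.aeval ![y, x] (pv.homogenize 8) =
    x ^ 7 * y + (5 : ZMod 7) • (x ^ 4 * y ^ 4) + x * y ^ 7 := by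
  unfold pv
  rw [Polynomial.homogenize_add, Polynomial.homogenize_add, Polynomial.homogenize_C_mul,
    Polynomial.homogenize_X (by norm_num), Polynomial.homogenize_X_pow (by norm_num),
    Polynomial.homogenize_X_pow (by norm_num)]
  simp only [map_add, map_mul, map_pow, MvPolynomial.aeval_X, MvPolynomial.aeval_C,
    Algebra.smul_def, Matrix.cons_val_zero, Matrix.cons_val_one]
  norm_num
  ring

private theorem hom_pow (P : Polynomial (ZMod 7)) (n : ℕ) (h : P.natDegree ≤ n) (j : ℕ) :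
    (P ^ j).natDegree ≤ n * j ∧ (P ^ j).homogenize (n * j) = (P.homogenize n) ^ j := by
  induction j with
  | zero =>
    refine ⟨by simp, ?_⟩
    rw [pow_zero, pow_zero, mul_zero, Polynomial.homogenize_one, pow_zero]
  | succ j ih =>
    refine ⟨?_, ?_⟩
    · rw [pow_succ]
      refine Polynomial.natDegree_mul_le.trans ?_
      have := ih.1
      rw [Nat.mul_succ]
      omega
    · rw [pow_succ, pow_succ, Nat.mul_succ, Polynomial.homogenize_mul _ _ ih.1 h, ih.2]

/-- the product as a form -/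
private theorem al_prod (x y : S) (q : ℕ → ZMod 7) (n i j : ℕ) :
    (∑ k ∈ Finset.range (n + 1), q k • (x ^ (n - k) * y ^ k)) * (x * y) ^ i *
        (x ^ 7 * y + (5 : ZMod 7) • (x ^ 4 * y ^ 4) + x * y ^ 7) ^ j =
      ∑ k ∈ Finset.range (n + 2 * i + 8 * j + 1), (pq q n * X ^ i * pv ^ j).coeff k •
        (x ^ (n + 2 * i + 8 * j - k) * y ^ k) := by
  have hX : (X ^ i : Polynomial (ZMod 7)).natDegree ≤ 2 * i :=
    (Polynomial.natDegree_X_pow_le i).trans (by omega)
  have hv := hom_pow pv 8 pv_deg j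
  have h1 : (pq q n * X ^ i : Polynomial (ZMod 7)).natDegree ≤ n + 2 * i :=
    Polynomial.natDegree_mul_le.trans (Nat.add_le_add (pq_deg q n) hX)
  have h2 : (pq q n * X ^ i * pv ^ j : Polynomial (ZMod 7)).natDegree ≤ n + 2 * i + 8 * j :=
    Polynomial.natDegree_mul_le.trans (Nat.add_le_add h1 hv.1)
  rw [← al_gen x y _ _ h2, Polynomial.homogenize_mul _ _ h1 hv.1,
    Polynomial.homogenize_mul _ _ (pq_deg q n) hX, hv.2, map_mul, map_mul, map_pow, al_pq, al_pv,
    Polynomial.homogenize_X_pow (by omega : i ≤ 2 * i), map_mul, map_pow, map_pow,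
    MvPolynomial.aeval_X, MvPolynomial.aeval_X]
  simp only [Matrix.cons_val_zero, Matrix.cons_val_one]
  have e : 2 * i - i = i := by omega
  rw [e, mul_pow x y i, mul_comm (x ^ i) (y ^ i)]

end poly

/-! ### Commuting elements -/

private theorem tr_ring {E : Type} [Ring E] [Algebra (ZMod 7) E] (D Y : E) (h : D * Y = Y * D) :
    ∃ (S : Type) (_ : CommRing S) (_ : Algebra (ZMod 7) S) (φ : S →ₐ[ZMod 7] E) (x y : S), φ x = D ∧ φ y = Y := by
  have hc : ∀ a ∈ ({D, Y} : Set E), ∀ b ∈ ({D, Y} : Set E), a * b = b * a := by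
    rintro a (rfl | rfl) b (rfl | rfl)
    · rfl
    · exact h
    · exact h.symm
    · rfl
  have hm : IsMulCommutative (Algebra.adjoin (ZMod 7) ({D, Y} : Set E)) := Algebra.isMulCommutative_adjoin (ZMod 7) hc
  let c : CommRing (Algebra.adjoin (ZMod 7) ({D, Y} : Set E)) :=
    { (inferInstance : Ring (Algebra.adjoin (ZMod 7) ({D, Y} : Set E))) with
      mul_comm := fun a b => hm.is_comm.comm a b }
  exact ⟨Algebra.adjoin (ZMod 7) {D, Y}, c, inferInstance, (Algebra.adjoin (ZMod 7) {D, Y}).val,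
    ⟨D, Algebra.subset_adjoin (by simp)⟩, ⟨Y, Algebra.subset_adjoin (by simp)⟩, rfl, rfl⟩

section forms

variable {r s : ℕ}

private theorem form (hl : S7Low0) (c i j f : ℕ) :
    (MoK c f * QoK ^ i * LoK ^ j : Module.End (ZMod 7) (Fn7 (7 ^ r) (7 ^ s))) =
      ∑ k ∈ Finset.range (nOK c + 2 * i + 8 * j + 1),
        (pq (fun k => ((qOK c f k : ℤ) : ZMod 7)) (nOK c) * Polynomial.X ^ i * pv ^ j).coeff k •
          (dX ^ (nOK c + 2 * i + 8 * j - k) * dY ^ k) := by
  obtain ⟨S, _, _, φ, x, y, hx, hy⟩ := tr_ring (dX : Module.End (ZMod 7) (Fn7 (7 ^ r) (7 ^ s))) dY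
    (hl r s).2.2.2.2.2.2.2.2.1
  have h := congrArg φ (al_prod x y (fun k => ((qOK c f k : ℤ) : ZMod 7)) (nOK c) i j)
  simp only [map_pow, map_add, map_mul, map_smul, map_sum, hx, hy] at h
  exact h

/-! ### Values on the binomial basis -/

private theorem dy_pow (hb : S7Bb) (p q m : ℕ) (hp : p < 7 ^ r) (hq : m + q < 7 ^ s) :
    (dY ^ m : Module.End (ZMod 7) (Fn7 (7 ^ r) (7 ^ s))) (bb7 p (m + q)) = bb7 p q := by
  induction m with
  | zero =>
    rw [pow_zero, zero_add]
    rfl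
  | succ m ih =>
    have h1 : m + 1 + q = (m + q) + 1 := by ring
    rw [pow_succ, Module.End.mul_apply, h1,
      (hb r s).2.2.1 p (m + q) hp (by omega)]
    exact ih (by omega)

private theorem dx_pow (hb : S7Bb) (p q m : ℕ) (hq : q < 7 ^ s) (hp : m + p < 7 ^ r) :
    (dX ^ m : Module.End (ZMod 7) (Fn7 (7 ^ r) (7 ^ s))) (bb7 (m + p) q) = bb7 p q := by
  induction m with
  | zero =>
    rw [pow_zero, zero_add]
    rfl
  | succ m ih =>
    have h1 : m + 1 + p = (m + p) + 1 := by ring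
    rw [pow_succ, Module.End.mul_apply, h1,
      (hb r s).2.1 (m + p) q (by omega) hq]
    exact ih (by omega)

private theorem dy_kill (hb : S7Bb) (p q m : ℕ) (hp : p < 7 ^ r) (hq : q < 7 ^ s) (h : q < m) :
    (dY ^ m : Module.End (ZMod 7) (Fn7 (7 ^ r) (7 ^ s))) (bb7 p q) = 0 := by
  obtain ⟨c, rfl⟩ : ∃ c, m = c + (1 + q) := ⟨m - (1 + q), by omega⟩
  rw [pow_add, pow_add, Module.End.mul_apply, Module.End.mul_apply]
  have h1 := dy_pow (r := r) (s := s) hb p 0 q hp (by omega)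
  rw [add_zero] at h1
  rw [h1, pow_one, (hb r s).2.2.2.2.1 p hp, map_zero]

private theorem dx_kill (hb : S7Bb) (p q m : ℕ) (hp : p < 7 ^ r) (hq : q < 7 ^ s) (h : p < m) :
    (dX ^ m : Module.End (ZMod 7) (Fn7 (7 ^ r) (7 ^ s))) (bb7 p q) = 0 := by
  obtain ⟨c, rfl⟩ : ∃ c, m = c + (1 + p) := ⟨m - (1 + p), by omega⟩
  rw [pow_add, pow_add, Module.End.mul_apply, Module.End.mul_apply]
  have h1 := dx_pow (r := r) (s := s) hb 0 q p hq (by omega)
  rw [add_zero] at h1
  rw [h1, pow_one, (hb r s).2.2.2.1 q hq, map_zero]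

private theorem kil (hb : S7Bb) (O : Module.End (ZMod 7) (Fn7 (7 ^ r) (7 ^ s))) (A B m : ℕ)
    (hA : A < 7 ^ r) (hB : B < 7 ^ s) (h : B < m) :
    (O * dY ^ m : Module.End (ZMod 7) (Fn7 (7 ^ r) (7 ^ s))) (bb7 A B) = 0 := by
  rw [Module.End.mul_apply, dy_kill hb A B m hA hB h, map_zero]

/-- value of the monomial of the point itself -/
private theorem val (hb : S7Bb) (A B : ℕ) (hA : A < 7 ^ r) (hB : B < 7 ^ s) :
    (dX ^ A * dY ^ B : Module.End (ZMod 7) (Fn7 (7 ^ r) (7 ^ s))) (bb7 A B) = bb7 0 0 := by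
  have h1 := dy_pow (r := r) (s := s) hb A 0 B hA (by omega)
  have h2 := dx_pow (r := r) (s := s) hb 0 0 A (by omega) (by omega)
  rw [add_zero] at h1 h2
  rw [Module.End.mul_apply, h1, h2]

private theorem one : ((bb7 0 0 : Fn7 (7 ^ r) (7 ^ s)) 0 0) = 1 := by simp [bb7]

/-! ### Degrees -/

private theorem lw_zero (k : ℤ) : Lw (0 : Module.End (ZMod 7) (Fn7 (7 ^ r) (7 ^ s))) k :=
  fun _ _ _ => Submodule.zero_mem _

private theorem lw_pow (hl : S7Low0) {O : Module.End (ZMod 7) (Fn7 (7 ^ r) (7 ^ s))} {k : ℤ} (h : Lw O k) (i : ℕ) :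
    Lw (O ^ i) ((i : ℤ) * k) := by
  induction i with
  | zero =>
    rw [pow_zero, Nat.cast_zero, zero_mul]
    exact (hl r s).2.2.2.2.2.1
  | succ i ih =>
    have h1 : ((i + 1 : ℕ) : ℤ) * k = (i : ℤ) * k + k := by
      push_cast
      ring
    rw [pow_succ, h1]
    exact (hl r s).1 _ _ _ _ ih h

private theorem lw_mul (hl : S7Low0) {O O' : Module.End (ZMod 7) (Fn7 (7 ^ r) (7 ^ s))} {k k' k'' : ℤ} (h : Lw O k)
    (h' : Lw O' k') (e : k + k' = k'') : Lw (O * O') k'' := by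
  rw [← e]
  exact (hl r s).1 _ _ _ _ h h'

private theorem lw_add (hl : S7Low0) {O O' : Module.End (ZMod 7) (Fn7 (7 ^ r) (7 ^ s))} {k : ℤ} (h : Lw O k)
    (h' : Lw O' k) : Lw (O + O') k := (hl r s).2.1 _ _ _ h h'

private theorem lw_smul (hl : S7Low0) (c : ZMod 7) {O : Module.End (ZMod 7) (Fn7 (7 ^ r) (7 ^ s))} {k : ℤ}
    (h : Lw O k) : Lw (c • O) k := (hl r s).2.2.1 _ _ _ h

private theorem lw_x (hl : S7Low0) (i : ℕ) : Lw (dX ^ i : Module.End (ZMod 7) (Fn7 (7 ^ r) (7 ^ s))) i := by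
  have h := lw_pow hl (hl r s).2.2.2.2.2.2.1 i
  rwa [mul_one] at h

private theorem lw_y (hl : S7Low0) (i : ℕ) : Lw (dY ^ i : Module.End (ZMod 7) (Fn7 (7 ^ r) (7 ^ s))) i := by
  have h := lw_pow hl (hl r s).2.2.2.2.2.2.2.1 i
  rwa [mul_one] at h

private theorem lw_x1 (hl : S7Low0) : Lw (dX : Module.End (ZMod 7) (Fn7 (7 ^ r) (7 ^ s))) 1 :=
  (hl r s).2.2.2.2.2.2.1

private theorem lw_y1 (hl : S7Low0) : Lw (dY : Module.End (ZMod 7) (Fn7 (7 ^ r) (7 ^ s))) 1 :=
  (hl r s).2.2.2.2.2.2.2.1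

private theorem lw_Q (hl : S7Low0) : Lw (QoK : Module.End (ZMod 7) (Fn7 (7 ^ r) (7 ^ s))) 2 :=
  lw_mul hl (lw_x1 hl) (lw_y1 hl) (by norm_num)

private theorem lw_L (hl : S7Low0) : Lw (LoK : Module.End (ZMod 7) (Fn7 (7 ^ r) (7 ^ s))) 8 :=
  lw_add hl (lw_add hl (lw_mul hl (lw_x hl 7) (lw_y1 hl) (by norm_num))
    (lw_smul hl _ (lw_mul hl (lw_x hl 4) (lw_y hl 4) (by norm_num))))
    (lw_mul hl (lw_x1 hl) (lw_y hl 7) (by norm_num))

private theorem lw_sum (hl : S7Low0) {ι : Type} (T : Finset ι) (O : ι → Module.End (ZMod 7) (Fn7 (7 ^ r) (7 ^ s)))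
    (k : ℤ) (h : ∀ t ∈ T, Lw (O t) k) : Lw (∑ t ∈ T, O t) k := by
  classical
  induction T using Finset.induction_on with
  | empty =>
    rw [Finset.sum_empty]
    exact lw_zero k
  | insert a T ha ih =>
    rw [Finset.sum_insert ha]
    exact lw_add hl (h a (Finset.mem_insert_self a T)) (ih fun t ht => h t (Finset.mem_insert_of_mem ht))

private theorem lw_M (hl : S7Low0) (c f : ℕ) : Lw (MoK c f : Module.End (ZMod 7) (Fn7 (7 ^ r) (7 ^ s))) (nOK c) := by
  unfold MoK
  apply lw_sum hl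
  intro k hk
  apply lw_smul hl
  apply lw_mul hl (lw_x hl _) (lw_y hl _)
  have h1 : k ≤ nOK c := by
    have := Finset.mem_range.1 hk
    omega
  push_cast [Nat.cast_sub h1]
  ring

/-- the value of a monomial of the right degree -/
private theorem mono_val (hb : S7Bb) (A B n k : ℕ) (hA : A < 7 ^ r) (hB : B < 7 ^ s) (hn : A + B = n)
    (hk : k ≤ n) :
    ((dX ^ (n - k) * dY ^ k : Module.End (ZMod 7) (Fn7 (7 ^ r) (7 ^ s))) (bb7 A B)) 0 0 =
      if k = B then 1 else 0 := by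
  rcases lt_trichotomy k B with h | h | h
  · rw [if_neg (by omega)]
    obtain ⟨t, rfl⟩ : ∃ t, B = k + t := ⟨B - k, by omega⟩
    rw [Module.End.mul_apply, dy_pow hb A t k hA hB, dx_kill hb A t (n - k) hA (by omega) (by omega)]
    rfl
  · subst h
    rw [if_pos rfl, show n - k = A by omega, val hb A k hA hB, one]
  · rw [if_neg (by omega), kil hb _ A B k hA hB h]
    rfl

private theorem sum_val (hb : S7Bb) (A B n : ℕ) (hA : A < 7 ^ r) (hB : B < 7 ^ s) (hn : A + B = n)
    (q : ℕ → ZMod 7) :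
    ((∑ k ∈ Finset.range (n + 1), q k • (dX ^ (n - k) * dY ^ k) :
      Module.End (ZMod 7) (Fn7 (7 ^ r) (7 ^ s))) (bb7 A B)) 0 0 = q B := by
  rw [LinearMap.sum_apply, Finset.sum_apply, Finset.sum_apply]
  rw [Finset.sum_eq_single B]
  · simp only [LinearMap.smul_apply, Pi.smul_apply]
    rw [mono_val hb A B n B hA hB hn (by omega), if_pos rfl, smul_eq_mul, mul_one]
  · intro k hk hkB
    have := Finset.mem_range.1 hk
    simp only [LinearMap.smul_apply, Pi.smul_apply]
    rw [mono_val hb A B n k hA hB hn (by omega), if_neg hkB, smul_zero]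
  · intro h
    exact absurd (Finset.mem_range.2 (by omega)) h

end forms

/-- TRF. -/
theorem hTrf (hl : S7Low0) (hb : S7Bb) : TTrf := by
  refine ⟨?_, vcK, vc_zero, vc_three, ?_⟩
  · intro r s c i j f hc
    have e : ((dgK c i j : ℕ) : ℤ) = (nOK c : ℤ) + (i : ℤ) * 2 + (j : ℤ) * 8 := by
      unfold dgK nOK
      push_cast
      ring
    rw [e]
    exact lw_mul hl (lw_mul hl (lw_M hl c f.val) (lw_pow hl (lw_Q hl) i) rfl) (lw_pow hl (lw_L hl) j) rfl
  · intro r s c i j A B f hc hA hB hAB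
    have hn : A + B = nOK c + 2 * i + 8 * j := by
      rw [hAB]
      rfl
    rw [form (r := r) (s := s) hl c i j f.val, sum_val hb A B _ hA hB hn, coeff_prod]

end Pool.Agent.Helper84.TK7
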